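import Mathlib
import Pool.Agent.Lib.Forcing.Random
import Pool.Agent.MP_0fb2ec_lc.Defs

-- part MP_0fb2ec_lc.Ext
section

/-!
The measure-theoretic facts in the ground universe.
-/

open MeasureTheory ProbabilityTheory Filter Set
open scoped ENNReal

namespace Pool.Agent.MP_0fb2ec_lc

/-- The space of random points. -/
abbrev Y : Type := ∀ km : ℕ × ℕ, Fin (km.2 + 1)

/-- The product of the uniform measures. -/
noncomputable def ν : Measure Y := Measure.infinitePi fun _ => uniformOn univ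

instance : IsProbabilityMeasure ν := by
  unfold ν
  infer_instance

theorem ν_cyl (S : Finset ℕ) (m : ℕ → ℕ) (A : ℕ → ℕ → Prop) :
    ν {y | ∀ k ∈ S, A k (y (k, m k))} =
      ∏ k ∈ S, uniformOn univ {j : Fin (m k + 1) | A k j} := by
  classical
  have hinj : Set.InjOn (fun k => (k, m k)) S := fun a _ b _ h => (Prod.ext_iff.1 h).1
  have := Measure.infinitePi_pi (fun km : ℕ × ℕ => (uniformOn univ : Measure (Fin (km.2 + 1))))
    (s := S.image fun k => (k, m k)) (t := fun km => {j | A km.1 j})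
    (fun _ _ => MeasurableSet.of_discrete)
  rw [Finset.prod_image hinj] at this
  rw [← this, ν]
  congr 1
  ext y
  simp

theorem unif_eq (m a : ℕ) : uniformOn univ {j : Fin (m + 1) | (j : ℕ) = a} ≤ ((m + 1 : ℕ) : ℝ≥0∞)⁻¹ := by
  rw [uniformOn_univ, Fintype.card_fin, ENNReal.div_eq_inv_mul]
  refine mul_le_of_le_one_right' ?_
  by_cases h : a < m + 1
  · have : {j : Fin (m + 1) | (j : ℕ) = a} = {⟨a, h⟩} := by
      ext j
      simp [Fin.ext_iff]
    rw [this, Measure.count_singleton]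
  · have : {j : Fin (m + 1) | (j : ℕ) = a} = ∅ := by
      ext j
      have := j.2
      simp only [mem_ofPred_eq, mem_empty_iff_false, iff_false]
      omega
    simp [this]

theorem unif_ne (m a : ℕ) (h : a < m + 1) :
    uniformOn univ {j : Fin (m + 1) | a ≠ (j : ℕ)} ≤
      ENNReal.ofReal (Real.exp (-(1 / (m + 1 : ℕ)))) := by
  have : {j : Fin (m + 1) | a ≠ (j : ℕ)} = {⟨a, h⟩}ᶜ := by
    ext j
    simp [Fin.ext_iff, eq_comm]
  rw [this, prob_compl_eq_one_sub MeasurableSet.of_discrete, uniformOn_univ, Fintype.card_fin,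
    Measure.count_singleton]
  have h1 : (1 : ℝ≥0∞) / (m + 1 : ℕ) = ENNReal.ofReal (1 / (m + 1 : ℕ)) := by
    rw [ENNReal.ofReal_div_of_pos (by positivity), ENNReal.ofReal_natCast, ENNReal.ofReal_one]
  rw [h1, ← ENNReal.ofReal_one, ← ENNReal.ofReal_sub _ (by positivity)]
  apply ENNReal.ofReal_le_ofReal
  have := Real.add_one_le_exp (-(1 / (m + 1 : ℕ) : ℝ))
  linarith

/-- The binary sequence read off a point. -/
def bits (y : Y) (k : ℕ) : Fin 2 := y (k, 1)

theorem measurable_bits : Measurable bits :=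
  measurable_pi_lambda _ fun k => measurable_pi_apply (k, 1)

open Classical in
/-- A family of sets of binary words has density tending to zero along a subsequence. -/
def Small (T : ∀ n : ℕ, (Fin n → Fin 2) → Prop) : Prop :=
  ∀ m : ℕ, ∃ n : ℕ, (Finset.univ.filter (T n)).card * m ≤ 2 ^ n

theorem null_of_small {T : ∀ n : ℕ, (Fin n → Fin 2) → Prop} (h : Small T) :
    ν {y | ∀ n, T n fun k => bits y k} = 0 := by
  classical
  have key : ∀ m : ℕ, (m : ℝ≥0∞) * ν {y | ∀ n, T n fun k => bits y k} ≤ 1 := by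
    intro m
    obtain ⟨n, hn⟩ := h m
    have h1 : ∀ s : Fin n → Fin 2, ν {y | (fun k : Fin n => bits y k) = s} ≤ (2⁻¹) ^ n := by
      intro s
      let A : ℕ → ℕ → Prop := fun k j => ∀ h : k < n, j = s ⟨k, h⟩
      have : {y | (fun k : Fin n => bits y k) = s} ⊆
          {y : Y | ∀ k ∈ Finset.range n, A k (y (k, (fun _ => 1) k))} := by
        rintro y rfl k _ hk
        rfl
      refine (measure_mono this).trans ?_
      rw [ν_cyl]
      refine (Finset.prod_le_pow_card _ _ 2⁻¹ fun k hk => ?_).trans (by simp)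
      have hk' := Finset.mem_range.1 hk
      refine le_trans (measure_mono fun j hj => hj hk') ((unif_eq 1 (s ⟨k, hk'⟩)).trans ?_)
      simp
    have h2 : {y | ∀ n, T n fun k => bits y k} ⊆
        ⋃ s ∈ Finset.univ.filter (T n), {y | (fun k : Fin n => bits y k) = s} := by
      intro y hy
      simp only [mem_iUnion, Finset.mem_filter, Finset.mem_univ, true_and]
      exact ⟨_, hy n, rfl⟩
    have h3 := (measure_mono h2).trans ((measure_biUnion_finset_le _ _).trans
      (Finset.sum_le_card_nsmul _ _ _ fun s _ => h1 s))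
    have h4 : (((Finset.univ.filter (T n)).card * m : ℕ) : ℝ≥0∞) ≤ 2 ^ n := by exact_mod_cast hn
    calc (m : ℝ≥0∞) * ν {y | ∀ n, T n fun k => bits y k}
        ≤ m * ((Finset.univ.filter (T n)).card • (2⁻¹) ^ n) := by gcongr
      _ = (((Finset.univ.filter (T n)).card * m : ℕ) : ℝ≥0∞) * (2⁻¹) ^ n := by
          push_cast
          rw [nsmul_eq_mul]
          ring
      _ ≤ 2 ^ n * (2⁻¹) ^ n := by gcongr
      _ = 1 := by
          rw [← mul_pow, ENNReal.mul_inv_cancel (by norm_num) (by norm_num), one_pow]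
  by_contra hne
  obtain ⟨m, hm⟩ := ENNReal.exists_nat_mul_gt hne ENNReal.one_ne_top
  exact absurd (key m) (not_le.2 hm)

/-- Partial sums of `1 / β`. -/
noncomputable def psum (β : ℕ → ℕ) (a : ℕ) : ℝ := ∑ k ∈ Finset.range a, 1 / (β k : ℝ)

/-- Positive with divergent sum of reciprocals. -/
def Good (β : ℕ → ℕ) : Prop := (∀ k, β k ≠ 0) ∧ ∀ m : ℕ, ∃ n, (m : ℝ) ≤ psum β n

open Classical in
/-- The interval partition attached to `β`. -/
noncomputable def part (β : ℕ → ℕ) (n : ℕ) : ℕ :=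
  if h : ∃ a, ((n * n : ℕ) : ℝ) ≤ psum β a then Nat.find h else 0

/-- The random element of `∏ β`. -/
def hh (β : ℕ → ℕ) (y : Y) (k : ℕ) : ℕ := y (k, β k - 1)

/-- The matching relation. -/
def mat (f i h : ℕ → ℕ) : Prop := ∃ N, ∀ n, ¬ n < N → ∃ k, k < i (n + 1) ∧ ¬ k < i n ∧ f k = h k

theorem hh_lt {β : ℕ → ℕ} (y : Y) {k : ℕ} (h : β k ≠ 0) : hh β y k < β k := by
  have := (y (k, β k - 1)).2
  simp only [hh] at this ⊢
  omega

theorem measurable_psum (a : ℕ) : Measurable fun β => psum β a :=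
  Finset.measurable_sum _ fun k _ =>
    (measurable_from_top (f := fun n : ℕ => 1 / (n : ℝ))).comp (measurable_pi_apply k)

theorem measurable_good : MeasurableSet {β | Good β} := by
  have := measurable_psum
  unfold Good
  measurability

theorem measurable_part : Measurable part := by
  classical
  refine measurable_pi_lambda _ fun n => measurable_to_countable' fun m => ?_
  have : (fun β => part β n) ⁻¹' {m} = {β | (((n * n : ℕ) : ℝ) ≤ psum β m ∧
      ∀ j < m, ¬ ((n * n : ℕ) : ℝ) ≤ psum β j) ∨ (m = 0 ∧ ∀ j, ¬ ((n * n : ℕ) : ℝ) ≤ psum β j)} := by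
    ext β
    by_cases h : ∃ a, ((n * n : ℕ) : ℝ) ≤ psum β a
    · simp only [part, dif_pos h, mem_preimage, mem_singleton_iff, Nat.find_eq_iff, mem_ofPred_eq]
      obtain ⟨j, hj⟩ := h
      exact ⟨Or.inl, fun h => h.elim id fun h => (h.2 j hj).elim⟩
    · simp only [part, dif_neg h, mem_preimage, mem_singleton_iff, mem_ofPred_eq]
      rw [not_exists] at h
      exact ⟨fun e => Or.inr ⟨e.symm, h⟩, fun e => e.elim (fun e => (h _ e.1).elim) (·.1.symm)⟩
  rw [this]
  have := measurable_psum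
  measurability

theorem measurable_hh : Measurable fun p : (ℕ → ℕ) × Y => hh p.1 p.2 := by
  refine measurable_pi_lambda _ fun k => ?_
  have h1 : Measurable fun q : Y × ℕ => (q.1 (k, q.2 - 1) : ℕ) :=
    measurable_from_prod_countable_left fun b =>
      (measurable_from_top (f := fun j : Fin (b - 1 + 1) => (j : ℕ))).comp
        (measurable_pi_apply (k, b - 1))
  exact h1.comp (measurable_snd.prodMk ((measurable_pi_apply k).comp measurable_fst))

theorem part_spec {β : ℕ → ℕ} (h : Good β) (n : ℕ) :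
    ((n * n : ℕ) : ℝ) ≤ psum β (part β n) ∧ psum β (part β n) ≤ (n * n : ℕ) + 1 ∧
      (n = 0 → part β n = 0) := by
  classical
  have hex : ∃ a, ((n * n : ℕ) : ℝ) ≤ psum β a := h.2 _
  simp only [part, dif_pos hex]
  refine ⟨Nat.find_spec hex, ?_, fun h0 => ?_⟩
  · rcases e : Nat.find hex with _ | a
    · simp only [psum, Finset.range_zero, Finset.sum_empty]
      positivity
    · have h1 := Nat.find_min hex (show a < Nat.find hex by omega)
      have h2 : 1 / (β a : ℝ) ≤ 1 := by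
        rw [div_le_one (by exact_mod_cast Nat.pos_of_ne_zero (h.1 a))]
        exact_mod_cast Nat.pos_of_ne_zero (h.1 a)
      simp only [psum, Finset.sum_range_succ] at h1 ⊢
      linarith
  · rw [Nat.find_eq_zero]
    simp [h0, psum]

theorem psum_mono (β : ℕ → ℕ) : Monotone (psum β) := fun _ _ h =>
  Finset.sum_le_sum_of_subset_of_nonneg (Finset.range_mono h) fun _ _ _ => by positivity

theorem part_lt {β : ℕ → ℕ} (h : Good β) (n : ℕ) : part β n < part β (n + 1) := by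
  by_contra hc
  have h1 := psum_mono β (not_lt.1 hc)
  obtain ⟨a1, a2, a3⟩ := part_spec h n
  obtain ⟨b1, -, -⟩ := part_spec h (n + 1)
  rcases Nat.eq_zero_or_pos n with rfl | hn
  · rw [a3 rfl] at h1
    simp only [psum, Finset.range_zero, Finset.sum_empty] at h1 b1
    norm_num at b1 h1
    linarith
  · have : (1 : ℝ) ≤ n := by exact_mod_cast hn
    push_cast at a2 b1
    nlinarith

theorem null_not_mat {β f : ℕ → ℕ} (h : Good β) (hf : ∀ k, f k < β k) :
    ν {y | ¬ mat f (part β) (hh β y)} = 0 := by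
  let A : ℕ → Set Y := fun n =>
    {y | ∀ k ∈ Finset.Ico (part β n) (part β (n + 1)), f k ≠ y (k, β k - 1)}
  have hA : ∀ n, ν (A n) ≤ (2⁻¹) ^ n := by
    intro n
    have := ν_cyl (Finset.Ico (part β n) (part β (n + 1))) (fun k => β k - 1) (fun k j => f k ≠ j)
    simp only [A]
    rw [this]
    have hb : ∀ k, β k - 1 + 1 = β k := fun k => Nat.sub_add_cancel (Nat.pos_of_ne_zero (h.1 k))
    refine (Finset.prod_le_prod' fun k _ => unif_ne _ _ (by rw [hb]; exact hf k)).trans ?_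
    rw [← ENNReal.ofReal_prod_of_nonneg fun _ _ => (Real.exp_pos _).le, ← Real.exp_sum]
    simp only [hb, Finset.sum_neg_distrib]
    rw [Finset.sum_Ico_eq_sub _ (part_lt h n).le]
    obtain ⟨-, a2, -⟩ := part_spec h n
    obtain ⟨b1, -, -⟩ := part_spec h (n + 1)
    have h2 : (2⁻¹ : ℝ≥0∞) ^ n = ENNReal.ofReal ((2⁻¹) ^ n) := by
      rw [ENNReal.ofReal_pow (by norm_num), ENNReal.ofReal_inv_of_pos (by norm_num)]
      simp
    rw [h2]
    apply ENNReal.ofReal_le_ofReal
    have h3 : Real.exp (-1) ≤ 2⁻¹ := by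
      rw [Real.exp_neg]
      refine inv_anti₀ (by norm_num) ?_
      have := Real.add_one_le_exp 1
      linarith
    calc _ ≤ Real.exp (n * (-1)) := by
          apply Real.exp_le_exp.2
          simp only [psum] at a2 b1
          push_cast at a2 b1
          have : (0 : ℝ) ≤ n := by positivity
          nlinarith
      _ = Real.exp (-1) ^ n := Real.exp_nat_mul _ _
      _ ≤ _ := pow_le_pow_left₀ (Real.exp_pos _).le h3 n
  have hsum : ∑' n, ν (A n) ≠ ∞ := by
    refine ne_top_of_le_ne_top ?_ (ENNReal.tsum_le_tsum hA)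
    rw [ENNReal.tsum_geometric]
    simp
  refine measure_eq_zero_iff_ae_notMem.2 ?_
  filter_upwards [ae_eventually_notMem hsum] with y hy
  obtain ⟨N, hN⟩ := eventually_atTop.1 hy
  simp only [not_not]
  refine ⟨N, fun n hn => ?_⟩
  have := hN n (not_lt.1 hn)
  simp only [A, mem_ofPred_eq, not_forall, not_not, Finset.mem_Ico] at this
  obtain ⟨k, hk, e⟩ := this
  exact ⟨k, hk.2, not_lt.2 hk.1, e⟩

theorem le_psum_of_card {n m : ℕ} (β : Fin n → ℕ) (hβ : ∀ k, β k ≠ 0)
    (h : (Finset.range m ×ˢ Fintype.piFinset fun k => Finset.range (β k)).card ≤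
      ((Finset.univ ×ˢ Fintype.piFinset fun k => Finset.range (β k)).filter
        fun p : Fin n × (Fin n → ℕ) => p.2 p.1 = 0).card) :
    (m : ℝ) ≤ ∑ k : Fin n, 1 / (β k : ℝ) := by
  rw [Finset.card_product, Finset.card_range, Fintype.card_piFinset, Finset.card_filter,
    Finset.sum_product] at h
  simp only [Finset.card_range, ← Finset.card_filter] at h
  have hP : (0 : ℝ) < ∏ k, (β k : ℝ) :=
    Finset.prod_pos fun k _ => by exact_mod_cast Nat.pos_of_ne_zero (hβ k)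
  have h1 : ∀ k, (((Fintype.piFinset fun k => Finset.range (β k)).filter
      fun s : Fin n → ℕ => s k = 0).card : ℝ) = 1 / (β k : ℝ) * ∏ k, (β k : ℝ) := by
    intro k
    rw [Fintype.card_filter_piFinset_eq_of_mem (fun k => Finset.range (β k)) k (a := 0)
      (by simpa using Nat.pos_of_ne_zero (hβ k)), ← Finset.mul_prod_erase _ _ (Finset.mem_univ k)]
    have : (β k : ℝ) ≠ 0 := by exact_mod_cast hβ k
    simp only [Finset.card_range, Nat.cast_prod]
    field_simp
  have h2 : (m : ℝ) * ∏ k, (β k : ℝ) ≤ ∑ k : Fin n, 1 / (β k : ℝ) * ∏ k, (β k : ℝ) := by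
    simp only [← h1]
    exact_mod_cast h
  rw [← Finset.sum_mul] at h2
  exact le_of_mul_le_mul_right h2 hP

end Pool.Agent.MP_0fb2ec_lc

end

-- part MP_0fb2ec_lc.Key
section

/-!
Translation of the notions of the problem between the random model and the ground universe.
-/

open MeasureTheory Filter Set

set_option synthInstance.maxSize 4096

namespace Pool.Agent.MP_0fb2ec_lc

open Pool.Agent.Lib.Forcing

section Gen

variable {B : Type} [CompleteBooleanAlgebra B]

instance rep_bin (A s : Nm B) : Rep (fun U : Ult B => Bin U.E (U.cl A) (U.cl s)) := by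
  unfold Bin; infer_instance

instance rep_agr (x y n : Nm B) : Rep (fun U : Ult B => Agr U.E (U.cl x) (U.cl y) (U.cl n)) := by
  unfold Agr; infer_instance

instance rep_clNull (w c : Nm B) : Rep (fun U : Ult B => ClNull U.E (U.cl w) (U.cl c)) := by
  unfold ClNull; infer_instance

instance rep_inE (w c : Nm B) : Rep (fun U : Ult B => InE U.E (U.cl w) (U.cl c)) := by
  unfold InE; infer_instance

instance rep_prd (A b s : Nm B) : Rep (fun U : Ult B => Prd U.E (U.cl A) (U.cl b) (U.cl s)) := by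
  unfold Prd; infer_instance

instance rep_dvg (w b : Nm B) : Rep (fun U : Ult B => Dvg U.E (U.cl w) (U.cl b)) := by
  unfold Dvg; infer_instance

instance rep_part (w b : Nm B) : Rep (fun U : Ult B => Part U.E (U.cl w) (U.cl b)) := by
  unfold Part; infer_instance

instance rep_mat (w f i h : Nm B) :
    Rep (fun U : Ult B => Mat U.E (U.cl w) (U.cl f) (U.cl i) (U.cl h)) := by
  unfold Mat; infer_instance

theorem bin_iff (U : Ult B) (A s : U.M) :
    Bin U.E A s ↔ Fn U.E A (fun _ y => U.E y (U.num 2)) s := by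
  have : ∀ y, (Emp U.E y ∨ ∃ e, Emp U.E e ∧ Suc U.E e y) ↔ U.E y (U.num 2) := by
    intro y
    simp only [U.emp_iff, exists_eq_left, U.suc_iff, U.E_num]
    constructor
    · rintro (h | h)
      · exact ⟨0, by norm_num, h⟩
      · exact ⟨1, by norm_num, h⟩
    · rintro ⟨k, hk, h⟩
      interval_cases k
      · exact Or.inl h
      · exact Or.inr h
  simp only [Bin, this]

end Gen

variable {Ω : Type} [MeasurableSpace Ω] {μ : Measure Ω} [IsFiniteMeasure μ]

theorem tr_of_forall (P : Ult (MAlg μ) → Prop) {Q : Ω → Prop} [h : Tr P Q] (hQ : ∀ w, Q w)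
    (U : Ult (MAlg μ)) : P U :=
  (Tr.const True).imp_of_ae h (ae_of_all _ fun w _ => hQ w) U trivial

theorem meas_restr (g : MF Ω) (n : ℕ) (s : Fin n → ℕ) :
    MeasurableSet {w | (fun k : Fin n => g.f w k) = s} :=
  (measurable_pi_lambda _ fun k : Fin n => (measurable_pi_apply (k : ℕ)).comp g.meas)
    (measurableSet_singleton s)

theorem ap_fnN_of_restr (g : MF Ω) {n : ℕ} {s : Fin n → ℕ} (U : Ult (MAlg μ))
    (h : U.P (cls fun w => (fun k : Fin n => g.f w k) = s)) (k : Fin n) (v : U.M) :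
    Ap U.E (U.cl (fnN g)) (U.num k) v ↔ v = U.num (s k) := by
  have h1 : Ap U.E (U.cl (fnN g)) (U.num k) (U.num (s k)) :=
    (Tr.cls' (meas_restr g n s)).imp_of_ae (Tr.ap_fnN g k (s k))
      (ae_of_all _ fun w hw => congrFun hw k) U h
  exact ⟨fun h2 => (U.fn_fnN_om g).unique U.zfc h2 h1, fun h2 => h2 ▸ h1⟩

/-- The binary sequence read off a random point. -/
def bitF (y : Ω → Y) (hy : Measurable y) : MF Ω :=
  ⟨fun w k => bits (y w) k, measurable_pi_lambda _ fun k =>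
    (measurable_from_top (f := fun j : Fin 2 => (j : ℕ))).comp
      ((measurable_pi_apply k).comp (measurable_bits.comp hy))⟩

theorem bin_bitF (y : Ω → Y) (hy : Measurable y) (U : Ult (MAlg μ)) :
    Bin U.E U.om (U.cl (fnN (bitF y hy))) := by
  rw [bin_iff, U.fn_fnN]
  refine tr_of_forall (fun U : Ult (MAlg μ) => ∀ x, U.E x U.om → ∀ z, U.E z U.om →
    Ap U.E (U.cl (fnN (bitF y hy))) x z → U.E z (U.num 2)) ?_ U
  rintro w k m rfl
  exact (bits (y w) k).2

theorem key_closed (c : Nm (MAlg μ)) : ∃ Z : Set (Ω × Y), MeasurableSet Z ∧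
    (∀ w, ν {y | (w, y) ∈ Z} = 0) ∧ ∀ (y : Ω → Y) (hy : Measurable y) (U : Ult (MAlg μ)),
      ClNull U.E U.om (U.cl c) → U.E (U.cl (fnN (bitF y hy))) (U.cl c) →
      U.P (cls fun w => (w, y w) ∈ Z) := by
  classical
  choose T hT using fun (n : ℕ) (s : Fin n → Fin 2) => Tr.of_rep (μ := μ)
    (fun U => ∃ x, U.E x (U.cl c) ∧ Agr U.E x (U.cl (seqN fun k => (s k : ℕ))) (U.num n))
  have hcard : ∀ n m : ℕ, MeasurableSet
      {w | (Finset.univ.filter fun s => T n s w).card * m ≤ 2 ^ n} := by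
    intro n m
    have h1 : Measurable fun w => fun s => T n s w :=
      measurable_pi_lambda _ fun s => measurableSet_setOfPred.1 (hT n s).meas
    exact (Measurable.of_discrete (f := fun t : (Fin n → Fin 2) → Prop =>
      (Finset.univ.filter t).card * m ≤ 2 ^ n)).comp h1 |> measurableSet_setOfPred.2
  have hsmall : MeasurableSet {w | Small fun n s => T n s w} := by
    simp only [Small, Set.ofPred_forall, Set.ofPred_exists]
    exact MeasurableSet.iInter fun m => MeasurableSet.iUnion fun n => by convert hcard n m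
  have hin : ∀ n, MeasurableSet {p : Ω × Y | T n (fun k => bits p.2 k) p.1} := by
    intro n
    have : {p : Ω × Y | T n (fun k => bits p.2 k) p.1} =
        ⋃ s, {w | T n s w} ×ˢ {y | (fun k : Fin n => bits y k) = s} := by
      ext p
      simp
    rw [this]
    refine MeasurableSet.iUnion fun s => (hT n s).meas.prod ?_
    exact (measurable_pi_lambda _ fun k : Fin n => (measurable_pi_apply (k : ℕ)).comp
      measurable_bits) (measurableSet_singleton s)
  have hall : MeasurableSet {p : Ω × Y | ∀ n, T n (fun k => bits p.2 k) p.1} := by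
    simp only [Set.ofPred_forall]
    exact MeasurableSet.iInter hin
  refine ⟨{p | Small (fun n s => T n s p.1) ∧ ∀ n, T n (fun k => bits p.2 k) p.1},
    (measurable_fst hsmall).inter hall, fun w => ?_, fun y hy U h1 h2 => ?_⟩
  · by_cases h : Small fun n s => T n s w
    · exact measure_mono_null (fun y hy => hy.2) (null_of_small h)
    · simp [h]
  have hwy : Measurable fun w => (w, y w) := measurable_id.prodMk hy
  have a1 : U.P (cls fun w => Small fun n s => T n s w) := by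
    have hm : ∀ m : ℕ, MeasurableSet
        {w | ∃ n, (Finset.univ.filter fun s => T n s w).card * m ≤ 2 ^ n} := fun m => by
      simp only [Set.ofPred_exists]
      exact MeasurableSet.iUnion fun n => hcard n m
    have := cls_all _ hm (fun U : Ult (MAlg μ) => ClNull U.E U.om (U.cl c)) (fun V m hV => ?_) U h1
    · convert this using 3
      simp only [Small]
    obtain ⟨n, hn, hle⟩ := hV.2.2 _ (V.num_mem_om m)
    refine om_elim (fun U n => Le U.E (fun p => ∃ s t, Pr U.E s t p ∧ (Bin U.E n s ∧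
      ∃ x, U.E x (U.cl c) ∧ Agr U.E x s n) ∧ U.E t (U.num m)) (Bin U.E n) →
      U.P (cls fun w => ∃ n, (Finset.univ.filter fun s => T n s w).card * m ≤ 2 ^ n))
      (fun W n hle => ?_) V n hn hle
    refine cls_of_atom (T n) (fun s => (hT n s).meas) W (hm m) fun w hw => ⟨n, ?_⟩
    have := hle.card_le ((Finset.univ.filter fun s => T n s w) ×ˢ Finset.range m)
      (Finset.univ : Finset (Fin n → Fin 2))
      (fun p => W.cl (opN (seqN fun k => (p.1 k : ℕ)) (numN p.2)))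
      (fun s => W.cl (seqN fun k => (s k : ℕ))) ?_ ?_ ?_
    · simpa using this
    · rintro ⟨s, t⟩ - ⟨s', t'⟩ - e
      obtain ⟨e1, e2⟩ := W.opN_inj.1 e
      have e3 := W.seqN_inj e1
      exact Prod.ext (funext fun k => Fin.ext (congrFun e3 k)) (W.num_inj.1 e2)
    · rintro ⟨s, t⟩ hst
      simp only [Finset.mem_product, Finset.mem_filter, Finset.mem_univ, true_and,
        Finset.mem_range] at hst
      refine ⟨_, _, W.pr_opN _ _, ⟨?_, ((hT n s).iff W).2 ((hw s).1 hst.1)⟩,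
        W.num_mem_num.2 hst.2⟩
      rw [bin_iff]
      exact W.fn_seqN _ fun k => W.num_mem_num.2 (s k).2
    · intro z hz
      rw [bin_iff] at hz
      obtain ⟨s, hs, rfl⟩ := W.eq_seqN hz (fun _ => 2) fun _ _ h => h
      exact ⟨fun k => ⟨s k, hs k⟩, Finset.mem_univ _, rfl⟩
  have a2 : U.P (cls fun w => ∀ n, T n (fun k => bits (y w) k) w) := by
    refine cls_all _ (fun n => hwy (hin n))
      (fun U : Ult (MAlg μ) => U.E (U.cl (fnN (bitF y hy))) (U.cl c)) (fun V n hV => ?_) U h2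
    have hφ : ∀ s : Fin n → Fin 2, MeasurableSet {w | (fun k : Fin n => bits (y w) k) = s} :=
      fun s => (measurable_pi_lambda _ fun k : Fin n => (measurable_pi_apply (k : ℕ)).comp
        (measurable_bits.comp hy)) (measurableSet_singleton s)
    refine decide_elim _ hφ (fun U : Ult (MAlg μ) => U.E (U.cl (fnN (bitF y hy))) (U.cl c) →
      U.P (cls fun w => T n (fun k => bits (y w) k) w)) (fun W s hs hW => ?_) V hV
    have b1 : W.P (cls fun w => (fun k : Fin n => (bitF y hy).f w k) = fun k => (s k : ℕ)) :=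
      W.mono (cls_mono (hφ s) (meas_restr _ _ _) (ae_of_all _ fun w hw => by
        rw [← hw]; rfl)) hs
    have b2 : W.P (cls (T n s)) := ((hT n s).iff W).1 ⟨_, hW, fun k hk v => by
      obtain ⟨k, hk', rfl⟩ := (W.E_num n k).1 hk
      exact (ap_fnN_of_restr _ W b1 ⟨k, hk'⟩ v).trans 
        (W.ap_seqN_num (fun k => (s k : ℕ)) ⟨k, hk'⟩ v).symm⟩
    exact (@Tr.and _ _ μ _ _ _ _ _ (Tr.cls' (hφ s)) (Tr.cls' (hT n s).meas)).imp_of_ae
      (Tr.cls' (Q := fun w => T n (fun k => bits (y w) k) w) (hwy (hin n)))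
      (ae_of_all _ fun w hw => by rw [hw.1]; exact hw.2) W ⟨hs, b2⟩
  exact ((@Tr.and _ _ μ _ _ _ _ _ (Tr.cls' hsmall) (Tr.cls' (hwy hall))).iff U).1 ⟨a1, a2⟩

theorem key_E (X : Nm (MAlg μ)) : ∃ Z : Set (Ω × Y), MeasurableSet Z ∧
    (∀ w, ν {y | (w, y) ∈ Z} = 0) ∧ ∀ (y : Ω → Y) (hy : Measurable y) (U : Ult (MAlg μ)),
      InE U.E U.om (U.cl X) → U.E (U.cl (fnN (bitF y hy))) (U.cl X) →
      U.P (cls fun w => (w, y w) ∈ Z) := by
  obtain ⟨C, hC⟩ := exists_witness (fun (U : Ult (MAlg μ)) C =>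
    Fn U.E U.om (fun _ c => ClNull U.E U.om c) C ∧
      ∀ x, U.E x (U.cl X) → ∃ k c, Ap U.E C k c ∧ U.E x c)
  choose c hc using fun k => exists_witness (fun (U : Ult (MAlg μ)) c =>
    Ap U.E (U.cl C) (U.num k) c)
  choose Z h1 h2 h3 using fun k => key_closed (c k)
  refine ⟨⋃ k, Z k, MeasurableSet.iUnion h1, fun w => ?_, fun y hy U hX hx => ?_⟩
  · simp only [mem_iUnion, Set.ofPred_exists]
    exact measure_iUnion_null fun k => h2 k w
  have hwy : Measurable fun w => (w, y w) := measurable_id.prodMk hy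
  obtain ⟨a1, a2⟩ := hC U hX
  obtain ⟨k, d, b1, b2⟩ := a2 _ hx
  refine om_elim (fun U k => Fn U.E U.om (fun _ c => ClNull U.E U.om c) (U.cl C) →
    ∀ d, Ap U.E (U.cl C) k d → U.E (U.cl (fnN (bitF y hy))) d →
      U.P (cls fun w => (w, y w) ∈ ⋃ k, Z k)) (fun V k a1 d b1 b2 => ?_) U k
    (a1.dom U.zfc b1) a1 d b1 b2
  obtain rfl := a1.unique V.zfc b1 (hc k V ⟨d, b1⟩)
  exact V.mono (cls_mono (hwy (h1 k)) (hwy (MeasurableSet.iUnion h1))
    (ae_of_all _ fun w hw => mem_iUnion.2 ⟨k, hw⟩)) (h3 k y hy V (a1.2.2 _ _ b1) b2)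

theorem dvg_good (g : MF Ω) (U : Ult (MAlg μ)) (h : Dvg U.E U.om (U.cl (fnN g))) :
    U.P (cls fun w => Good (g.f w)) := by
  classical
  have t1 := (inferInstance : Tr (fun U : Ult (MAlg μ) => ∀ x, U.E x U.om → ∀ z, U.E z U.om →
    Ap U.E (U.cl (fnN g)) x z → U.E z U.om ∧ ¬ Emp U.E z) _).congr
    (P' := fun U => Fn U.E U.om (fun _ y => U.E y U.om ∧ ¬ Emp U.E y) (U.cl (fnN g)))
    (Q' := fun w => ∀ k, g.f w k ≠ 0) (fun U => (U.fn_fnN g).symm) (fun w => by simp)
  have hm' : ∀ m n : ℕ, MeasurableSet {w | (m : ℝ) ≤ psum (g.f w) n} := fun m n =>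
    measurableSet_le measurable_const ((measurable_psum n).comp g.meas)
  have hm : ∀ m : ℕ, MeasurableSet {w | ∃ n, (m : ℝ) ≤ psum (g.f w) n} := fun m => by
    simp only [Set.ofPred_exists]
    exact MeasurableSet.iUnion fun n => hm' m n
  have a2 : U.P (cls fun w => ∀ m : ℕ, ∃ n, (m : ℝ) ≤ psum (g.f w) n) := by
    refine cls_all _ hm (fun U : Ult (MAlg μ) => Dvg U.E U.om (U.cl (fnN g)))
      (fun V m hV => ?_) U h
    obtain ⟨n, hn, hle⟩ := hV.2 _ (V.num_mem_om m)
    refine om_elim (fun U n => Fn U.E U.om (fun _ y => U.E y U.om ∧ ¬ Emp U.E y) (U.cl (fnN g)) →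
      Le U.E (fun p => ∃ t s, Pr U.E t s p ∧ U.E t (U.num m) ∧ Prd U.E n (U.cl (fnN g)) s)
        (fun q => ∃ k s, Pr U.E k s q ∧ Prd U.E n (U.cl (fnN g)) s ∧
          ∃ e, Emp U.E e ∧ Ap U.E s k e) →
      U.P (cls fun w => ∃ n, (m : ℝ) ≤ psum (g.f w) n)) (fun W n => ?_) V n hn hV.1 hle
    refine decide_elim _ (meas_restr g n) (fun U : Ult (MAlg μ) =>
      Fn U.E U.om (fun _ y => U.E y U.om ∧ ¬ Emp U.E y) (U.cl (fnN g)) →
      Le U.E (fun p => ∃ t s, Pr U.E t s p ∧ U.E t (U.num m) ∧ Prd U.E (U.num n) (U.cl (fnN g)) s)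
        (fun q => ∃ k s, Pr U.E k s q ∧ Prd U.E (U.num n) (U.cl (fnN g)) s ∧
          ∃ e, Emp U.E e ∧ Ap U.E s k e) →
      U.P (cls fun w => ∃ n, (m : ℝ) ≤ psum (g.f w) n)) (fun X β hβ hpos hle => ?_) W
    have hap := ap_fnN_of_restr g X hβ
    have hβ0 : ∀ k, β k ≠ 0 := fun k e =>
      (hpos.2.2 _ _ ((hap k _).2 rfl)).2 ((X.emp_iff _).2 (by rw [e]))
    have hsum := le_psum_of_card (m := m) β hβ0 (hle.card_le _ _
      (fun p => X.cl (opN (numN p.1) (seqN p.2))) (fun p => X.cl (opN (numN p.1) (seqN p.2)))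
      ?_ ?_ ?_)
    · refine X.mono (cls_mono (meas_restr g n β) (hm m) (ae_of_all _ fun w hw => ⟨n, ?_⟩)) hβ
      rw [psum, Finset.sum_range]
      rw [← hw] at hsum
      exact hsum
    · rintro ⟨t, s⟩ - ⟨t', s'⟩ - e
      obtain ⟨e1, e2⟩ := X.opN_inj.1 e
      exact Prod.ext (X.num_inj.1 e1) (X.seqN_inj e2)
    · rintro ⟨t, s⟩ hst
      simp only [Finset.mem_product, Finset.mem_range, Fintype.mem_piFinset] at hst
      exact ⟨_, _, X.pr_opN _ _, X.num_mem_num.2 hst.1,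
        X.fn_seqN _ fun k => ⟨_, (hap k _).2 rfl, X.num_mem_num.2 (hst.2 k)⟩⟩
    · rintro q ⟨k, s, hq, hs, e, he, hk⟩
      obtain ⟨s, hs', rfl⟩ := X.eq_seqN hs β fun k y ⟨v, h1, h2⟩ => (hap k v).1 h1 ▸ h2
      obtain ⟨k, rfl, e2⟩ := (X.ap_seqN _ _ _).1 hk
      refine ⟨(k, s), ?_, (X.pr_iff _ _ _).1 hq⟩
      simp only [Finset.mem_filter, Finset.mem_product, Finset.mem_univ, Fintype.mem_piFinset,
        Finset.mem_range, true_and]
      exact ⟨hs', X.num_inj.1 (e2.symm.trans ((X.emp_iff e).1 he))⟩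
  have hm2 : MeasurableSet {w | ∀ m : ℕ, ∃ n, (m : ℝ) ≤ psum (g.f w) n} := by
    simp only [Set.ofPred_forall]
    exact MeasurableSet.iInter hm
  exact ((@Tr.and _ _ μ _ _ _ _ _ t1 (Tr.cls' hm2)).iff U).1 ⟨h.1, a2⟩

/-- The partition attached to `g`. -/
noncomputable def partF (g : MF Ω) : MF Ω := ⟨fun w => part (g.f w), measurable_part.comp g.meas⟩

/-- The random element of the product attached to `g`. -/
def hhF (g : MF Ω) (y : Ω → Y) (hy : Measurable y) : MF Ω :=
  ⟨fun w => hh (g.f w) (y w), measurable_hh.comp (g.meas.prodMk hy)⟩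

theorem part_partF (g : MF Ω) (U : Ult (MAlg μ)) (h : U.P (cls fun w => Good (g.f w))) :
    Part U.E U.om (U.cl (fnN (partF g))) := by
  have t0 := Tr.cls' (μ := μ) (g.meas measurable_good)
  refine ⟨U.fn_fnN_om _, fun e he => ?_, fun n n' a a' h1 h2 h3 => ?_⟩
  · rw [(U.emp_iff e).1 he]
    exact t0.imp_of_ae (Tr.ap_fnN (partF g) 0 0)
      (ae_of_all _ fun w hw => (part_spec hw 0).2.2 rfl) U h
  · refine t0.imp_of_ae (inferInstance : Tr (fun U : Ult (MAlg μ) => ∀ n, U.E n U.om →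
      ∀ n', U.E n' U.om → ∀ a, U.E a U.om → ∀ a', U.E a' U.om → Suc U.E n n' →
        Ap U.E (U.cl (fnN (partF g))) n a → Ap U.E (U.cl (fnN (partF g))) n' a' → U.E a a') _)
      (ae_of_all _ fun w hw => ?_) U h n (U.ap_fnN_om _ h2).1 n' (U.ap_fnN_om _ h3).1
      a (U.ap_fnN_om _ h2).2 a' (U.ap_fnN_om _ h3).2 h1 h2 h3
    rintro n _ _ _ rfl rfl rfl
    exact part_lt hw n

theorem tr_prd (g f : MF Ω) : Tr (fun U : Ult (MAlg μ) =>
    Prd U.E U.om (U.cl (fnN g)) (U.cl (fnN f))) (fun w => ∀ k, f.f w k < g.f w k) := by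
  refine (inferInstance : Tr (fun U : Ult (MAlg μ) => ∀ x, U.E x U.om → ∀ z, U.E z U.om →
    Ap U.E (U.cl (fnN f)) x z → ∃ v, U.E v U.om ∧ (Ap U.E (U.cl (fnN g)) x v ∧ U.E z v)) _).congr
    (fun U => ?_) (fun w => by simp)
  rw [Prd, U.fn_fnN]
  refine forall₅_congr fun x _ z _ _ => exists_congr fun v => ?_
  exact ⟨fun h => h.2, fun h => ⟨(U.ap_fnN_om _ h.1).2, h⟩⟩

theorem prd_fn (g : MF Ω) (U : Ult (MAlg μ)) {f : U.M} (h : Prd U.E U.om (U.cl (fnN g)) f) :
    Fn U.E U.om (fun _ y => U.E y U.om) f :=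
  Fn.mono h fun _ _ _ ⟨_, h1, h2⟩ => U.om_trans (U.ap_fnN_om _ h1).2 h2

theorem mat_of (f i h : MF Ω) : MeasurableSet {w | mat (f.f w) (i.f w) (h.f w)} ∧
    ∀ U : Ult (MAlg μ), U.P (cls fun w => mat (f.f w) (i.f w) (h.f w)) →
      Mat U.E U.om (U.cl (fnN f)) (U.cl (fnN i)) (U.cl (fnN h)) := by
  have t := (inferInstance : Tr (fun U : Ult (MAlg μ) => ∃ N, U.E N U.om ∧ ∀ n, U.E n U.om →
    ¬ U.E n N → ∀ n', U.E n' U.om → ∀ a, U.E a U.om → ∀ a', U.E a' U.om → Suc U.E n n' →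
      Ap U.E (U.cl (fnN i)) n a → Ap U.E (U.cl (fnN i)) n' a' →
      ∃ k, U.E k U.om ∧ (U.E k a' ∧ ¬ U.E k a ∧ ∃ v, U.E v U.om ∧
        (Ap U.E (U.cl (fnN f)) k v ∧ Ap U.E (U.cl (fnN h)) k v))) _).congr
    (Q' := fun w => mat (f.f w) (i.f w) (h.f w)) (fun _ => Iff.rfl) (fun w => by
      refine exists_congr fun N => forall₂_congr fun n _ => ⟨fun H => ?_, ?_⟩
      · obtain ⟨k, b1, b2, v, b3, b4⟩ := H _ _ _ rfl rfl rfl
        exact ⟨k, b1, b2, b3.trans b4.symm⟩
      · rintro ⟨k, b1, b2, b3⟩ _ _ _ rfl rfl rfl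
        exact ⟨k, b1, b2, _, b3, rfl⟩)
  refine ⟨t.meas, fun U hU => ?_⟩
  obtain ⟨N, hN, H⟩ := (t.iff U).2 hU
  refine ⟨N, hN, fun n hn hnN n' a a' h1 h2 h3 => ?_⟩
  obtain ⟨k, -, b1, b2, v, -, b3⟩ := H n hn hnN n' (U.ap_fnN_om _ h3).1
      a (U.ap_fnN_om _ h2).2 a' (U.ap_fnN_om _ h3).2 h1 h2 h3
  exact ⟨k, b1, b2, v, b3⟩

theorem key_M (g : MF Ω) (a : Nm (MAlg μ)) : ∃ Z : Set (Ω × Y), MeasurableSet Z ∧
    (∀ w, ν {y | (w, y) ∈ Z} = 0) ∧ ∀ (y : Ω → Y) (hy : Measurable y) (U : Ult (MAlg μ)),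
      U.P (cls fun w => Good (g.f w)) → Prd U.E U.om (U.cl (fnN g)) (U.cl a) →
      ¬ Mat U.E U.om (U.cl a) (U.cl (fnN (partF g))) (U.cl (fnN (hhF g y hy))) →
      U.P (cls fun w => (w, y w) ∈ Z) := by
  obtain ⟨f, hf⟩ := exists_fnN a
  let g' : MF (Ω × Y) := ⟨fun p => g.f p.1, g.meas.comp measurable_fst⟩
  let f' : MF (Ω × Y) := ⟨fun p => f.f p.1, f.meas.comp measurable_fst⟩
  refine ⟨{p | Good (g.f p.1) ∧ (∀ k, f.f p.1 k < g.f p.1 k) ∧
    ¬ mat (f.f p.1) (part (g.f p.1)) (hh (g.f p.1) p.2)}, ?_, fun w => ?_,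
    fun y hy U h1 h2 h3 => ?_⟩
  · exact (g'.meas measurable_good).inter ((tr_prd (μ := 0) g' f').meas.inter
      (mat_of (μ := 0) f' (partF g') (hhF g' Prod.snd measurable_snd)).1.compl)
  · by_cases h : Good (g.f w) ∧ ∀ k, f.f w k < g.f w k
    · simpa [h.1, h.2] using null_not_mat h.1 h.2
    · simp only [mem_ofPred_eq, ← and_assoc, h, false_and]
      simp
  · have e := hf U (prd_fn g U h2)
    rw [e] at h2 h3
    obtain ⟨m1, m2⟩ := mat_of (μ := μ) f (partF g) (hhF g y hy)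
    exact ((@Tr.and _ _ μ _ _ _ _ _ (Tr.cls' (g.meas measurable_good))
      (@Tr.and _ _ μ _ _ _ _ _ (tr_prd g f) (@Tr.not _ _ μ _ _ _ (Tr.cls' m1)))).iff U).1
      ⟨h1, h2, fun h => h3 (m2 U h)⟩

theorem prd_hhF (g : MF Ω) (y : Ω → Y) (hy : Measurable y) (U : Ult (MAlg μ))
    (h : U.P (cls fun w => Good (g.f w))) :
    Prd U.E U.om (U.cl (fnN g)) (U.cl (fnN (hhF g y hy))) :=
  (Tr.cls' (μ := μ) (g.meas measurable_good)).imp_of_ae (tr_prd g _)
    (ae_of_all _ fun _ hw k => hh_lt _ (hw.1 k)) U h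

end Pool.Agent.MP_0fb2ec_lc

end

-- part MP_0fb2ec_lc.Main
section

/-!
The random model.
-/

open MeasureTheory Filter Set

set_option synthInstance.maxSize 4096

namespace Pool.Agent.MP_0fb2ec_lc

open Pool.Agent.Lib.Forcing

/-- The sample space: many independent random points. -/
abbrev Om0 : Type := Set (Y × ℕ) → Y

/-- The product measure on it. -/
noncomputable def μ0 : Measure Om0 := Measure.infinitePi fun _ => ν

instance : IsProbabilityMeasure μ0 := by
  unfold μ0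
  infer_instance

theorem exists_ult : Nonempty (Ult (MAlg μ0)) := by
  obtain ⟨U, -⟩ := Ult.exists_mem (a := (⊤ : MAlg μ0)) fun h => by
    have : ∀ᵐ w ∂μ0, w ∈ (univ : Set Om0) → w ∈ (∅ : Set Om0) := h.le
    obtain ⟨w, hw⟩ := this.exists
    exact hw trivial
  exact ⟨U⟩

theorem exists_rep (U : Ult (MAlg μ0)) {b : U.M} (h : Dvg U.E U.om b) :
    ∃ g : MF Om0, b = U.cl (fnN g) := by
  obtain ⟨a, rfl⟩ := U.cl_surj b
  obtain ⟨g, hg⟩ := exists_fnN a
  exact ⟨g, hg U (h.1.mono fun _ _ _ h => h.1)⟩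

theorem q1 (U : Ult (MAlg μ0)) (b : U.M) (hb : Dvg U.E U.om b) :
    ∃ X, (∀ x, U.E x X → Bin U.E U.om x) ∧ ¬ InE U.E U.om X ∧
      ∀ F, (∀ f, U.E f F → Prd U.E U.om b f) →
        (¬ ∃ i h, Part U.E U.om i ∧ Prd U.E U.om b h ∧ ∀ f, U.E f F → Mat U.E U.om f i h) →
        Lt U.E X F := by
  obtain ⟨g, rfl⟩ := exists_rep U hb
  have hg := dvg_good g U hb
  let X : Nm (MAlg μ0) := ⟨Y, fun y => fnN (bitF (fun _ => y) measurable_const), fun _ => ⊤⟩
  refine ⟨U.cl X, mem_elim X (fun U x => Bin U.E U.om x) (fun V y _ => bin_bitF _ _ V) U,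
    fun h => ?_, fun F hF hnb => U.lt_of_not_le fun ⟨j, hj1, hj2⟩ => hnb ?_⟩
  · obtain ⟨Z, h1, h2, h3⟩ := key_E X
    obtain ⟨y, hy⟩ := exists_ground_point ν μ0 Z h1 h2
    exact U.not_cls_of_null ((measurable_id.prodMk measurable_const) h1) hy
      (h3 _ measurable_const U h (U.E_intro X y U.top))
  · obtain ⟨j, rfl⟩ := U.cl_surj j
    choose a ha using fun y : Y => exists_witness (fun (U : Ult (MAlg μ0)) f =>
      Ap U.E (U.cl j) f (U.cl (X.fn y)))
    choose Z h1 h2 h3 using fun y : Y => key_M g (a y)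
    obtain ⟨α, hα⟩ := exists_fresh ν Z h1 h2
    have hm : Measurable fun w : Om0 => w α := measurable_pi_apply α
    refine ⟨_, U.cl (fnN (hhF g _ hm)), part_partF g U hg, prd_hhF g _ hm U hg, fun f hf => ?_⟩
    obtain ⟨x, hx, hfx⟩ := hj1 f hf
    refine mem_elim X (fun U x => U.P (cls fun w => Good (g.f w)) →
      (∀ x x' y y', Ap U.E (U.cl j) x y → Ap U.E (U.cl j) x' y' → (x = x' ↔ y = y')) →
      ∀ f, Ap U.E (U.cl j) f x → Prd U.E U.om (U.cl (fnN g)) f →
        Mat U.E U.om f (U.cl (fnN (partF g))) (U.cl (fnN (hhF g _ hm))))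
      (fun V y _ hg hj2 f hfx hf => ?_) U x hx hg hj2 f hfx (hF f hf)
    obtain rfl := (hj2 _ _ _ _ hfx (ha y V ⟨f, hfx⟩)).2 rfl
    by_contra hcon
    exact V.not_cls_of_null ((measurable_id.prodMk hm) (h1 y)) (hα y) (h3 y _ hm V hg hf hcon)

theorem q2 (U : Ult (MAlg μ0)) (b : U.M) (hb : Dvg U.E U.om b) :
    ∃ D, (∀ d, U.E d D → ∃ i h, Pr U.E i h d ∧ Part U.E U.om i ∧ Prd U.E U.om b h) ∧
      (∀ f, Prd U.E U.om b f → ∃ d i h, U.E d D ∧ Pr U.E i h d ∧ Mat U.E U.om f i h) ∧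
      ∀ A, (∀ X, U.E X A → InE U.E U.om X) → (∀ x, Bin U.E U.om x → ∃ X, U.E X A ∧ U.E x X) →
        Lt U.E D A := by
  obtain ⟨g, rfl⟩ := exists_rep U hb
  have hg := dvg_good g U hb
  let D : Nm (MAlg μ0) :=
    ⟨Y, fun y => opN (fnN (partF g)) (fnN (hhF g (fun _ => y) measurable_const)), fun _ => ⊤⟩
  refine ⟨U.cl D, fun d hd => mem_elim D (fun U d => U.P (cls fun w => Good (g.f w)) →
      ∃ i h, Pr U.E i h d ∧ Part U.E U.om i ∧ Prd U.E U.om (U.cl (fnN g)) h)
      (fun V y _ hg => ⟨_, _, V.pr_opN _ _, part_partF g V hg, prd_hhF g _ _ V hg⟩) U d hd hg,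
    fun f hf => ?_, fun A hA hcov => U.lt_of_not_le fun ⟨j, hj1, hj2⟩ => ?_⟩
  · obtain ⟨a, rfl⟩ := U.cl_surj f
    obtain ⟨Z, h1, h2, h3⟩ := key_M g a
    obtain ⟨y, hy⟩ := exists_ground_point ν μ0 Z h1 h2
    refine ⟨_, _, _, U.E_intro D y U.top, U.pr_opN _ _, ?_⟩
    by_contra hcon
    exact U.not_cls_of_null ((measurable_id.prodMk measurable_const) h1) hy
      (h3 _ measurable_const U hg hf hcon)
  · obtain ⟨j, rfl⟩ := U.cl_surj j
    choose a ha using fun y : Y => exists_witness (fun (U : Ult (MAlg μ0)) X =>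
      Ap U.E (U.cl j) X (U.cl (D.fn y)))
    choose Z h1 h2 h3 using fun y : Y => key_E (a y)
    obtain ⟨α, hα⟩ := exists_fresh ν Z h1 h2
    have hm : Measurable fun w : Om0 => w α := measurable_pi_apply α
    obtain ⟨X, hX, hr⟩ := hcov _ (bin_bitF _ hm U)
    obtain ⟨d, hd, hXd⟩ := hj1 X hX
    refine mem_elim D (fun U d =>
      (∀ x x' y y', Ap U.E (U.cl j) x y → Ap U.E (U.cl j) x' y' → (x = x' ↔ y = y')) →
      ∀ X, Ap U.E (U.cl j) X d → InE U.E U.om X → ¬ U.E (U.cl (fnN (bitF _ hm))) X)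
      (fun V y _ hj2 X hXd hX hr => ?_) U d hd hj2 X hXd (hA X hX) hr
    obtain rfl := (hj2 _ _ _ _ hXd (ha y V ⟨X, hXd⟩)).2 rfl
    exact V.not_cls_of_null ((measurable_id.prodMk hm) (h1 y)) (hα y) (h3 y _ hm V hX hr)

end Pool.Agent.MP_0fb2ec_lc

end
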